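import Mathlib
import Pool.Agent.Helper265.HgK
import Pool.Agent.Helper265.BrAD

set_option autoImplicit false
open Complex Set Filter Metric Topology MeasureTheory
open scoped ENNReal

namespace Pool.Agent.Results.MP_3a6b94_an.CompletenessAllExponents

/-- `φ` is a conformal map of `Ω` onto the open unit disc. -/
def IsConformalOntoDisc (φ : ℂ → ℂ) (Ω : Set ℂ) : Prop :=
  DifferentiableOn ℂ φ Ω ∧ BijOn φ Ω (ball 0 1) ∧ ∀ z ∈ Ω, deriv φ z ≠ 0

/-- `W : (0, 1] → (0, ∞)` is nondecreasing, hence bounded by `W 1`, and `W t ↓ 0` as `t ↓ 0`. -/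
structure IsProfile (W : ℝ → ℝ) : Prop where
  pos : ∀ t ∈ Ioc (0 : ℝ) 1, 0 < W t
  mono : MonotoneOn W (Ioc 0 1)
  lim : Tendsto W (𝓝[>] 0) (𝓝 0)

/-- The integral of `log log (1 / W t)` over `(0, a)` is `+∞` for some `a ∈ (0, 1]` with
`W a < 1`. (On `(0, a)` the integrand is bounded below by `log log (1 / W a)`, so this is the
divergence to `+∞` of the integral of its positive part.) -/
def LogLogDiverges (W : ℝ → ℝ) : Prop :=
  ∃ a ∈ Ioc (0 : ℝ) 1, W a < 1 ∧
    ∫⁻ t in Ioo 0 a, ENNReal.ofReal (Real.log (Real.log (1 / W t))) = ∞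

/-- The unbounded component of the complement of the closure of `Ω`. -/
def outerComponent (Ω : Set ℂ) : Set ℂ :=
  {z | z ∉ closure Ω ∧ ¬ Bornology.IsBounded (connectedComponentIn (closure Ω)ᶜ z)}

/-- Harmonic measure of `E` on the boundary of `Ω`, with respect to the point of `Ω` that `φ`
maps to `0`: the normalised Lebesgue (outer) measure of the set of those angles `θ` for which the
inverse map `φ⁻¹` of the disc onto `Ω` has at `exp (θ * I)` a radial limit lying in `E`. -/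
noncomputable def harmonicMeasure (Ω : Set ℂ) (φ : ℂ → ℂ) (E : Set ℂ) : ℝ≥0∞ :=
  volume {θ : ℝ | θ ∈ Ioo (-Real.pi) Real.pi ∧ ∃ z ∈ E,
    Tendsto (fun r : ℝ => Function.invFunOn φ Ω ((r : ℂ) * exp (θ * I))) (𝓝[<] (1 : ℝ)) (𝓝 z)} /
    ENNReal.ofReal (2 * Real.pi)

/-- The measure `w dx dy` on `Ω`, with `w z = W (1 - ‖φ z‖)`. -/
noncomputable def weighted (Ω : Set ℂ) (φ : ℂ → ℂ) (W : ℝ → ℝ) : Measure ℂ :=
  (volume.restrict Ω).withDensity (fun z => ENNReal.ofReal (W (1 - ‖φ z‖)))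

/-- The closure of the polynomials in `L^p(μ)`. -/
def Hp (μ : Measure ℂ) (p : ℝ≥0∞) [Fact (1 ≤ p)] : Set (Lp ℂ p μ) :=
  closure {F | ∃ P : Polynomial ℂ, (F : ℂ → ℂ) =ᵐ[μ] fun z => P.eval z}

/-- The elements of `L^p(μ)` that are analytic in `Ω`. -/
def Lpa (Ω : Set ℂ) (μ : Measure ℂ) (p : ℝ≥0∞) : Set (Lp ℂ p μ) :=
  {F | ∃ f : ℂ → ℂ, DifferentiableOn ℂ f Ω ∧ (F : ℂ → ℂ) =ᵐ[μ] f}

open Pool.Agent.Helper265

theorem weight_low {Ω : Set ℂ} {φ : ℂ → ℂ} (h : IsConformalOntoDisc φ Ω)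
    {W : ℝ → ℝ} (hW : IsProfile W) (K : Set ℂ) (hK : K ⊆ Ω) (hKc : IsCompact K) :
    ∃ c : ℝ≥0∞, 0 < c ∧ ∀ z ∈ K, c ≤ ENNReal.ofReal (W (1 - ‖φ z‖)) := by
  rcases K.eq_empty_or_nonempty with rfl | hne
  · exact ⟨1, one_pos, by simp⟩
  obtain ⟨z0, hz0, hmax⟩ := hKc.exists_isMaxOn hne ((h.1.continuousOn.mono hK).norm)
  have h1 : ‖φ z0‖ < 1 := by simpa using h.2.1.mapsTo (hK hz0)
  refine ⟨ENNReal.ofReal (W (1 - ‖φ z0‖)), ?_, fun z hz => ?_⟩
  · rw [ENNReal.ofReal_pos]
    exact hW.pos _ ⟨by linarith, by linarith [norm_nonneg (φ z0)]⟩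
  · apply ENNReal.ofReal_le_ofReal
    have h2 : ‖φ z‖ ≤ ‖φ z0‖ := hmax hz
    exact hW.mono ⟨by linarith, by linarith [norm_nonneg (φ z0)]⟩
      ⟨by linarith, by linarith [norm_nonneg (φ z)]⟩ (by linarith)

/-- exteriors of discs are connected -/
theorem ext_conn {R : ℝ} (hR : 0 < R) : IsPreconnected {z : ℂ | R < ‖z‖} := by
  have h1 : {z : ℂ | R < ‖z‖} = exp '' {ζ : ℂ | Real.log R < ζ.re} := by
    ext z
    constructor
    · intro (hz : R < ‖z‖)
      have hz0 : z ≠ 0 := by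
        rintro rfl
        rw [norm_zero] at hz
        linarith
      refine ⟨Complex.log z, ?_, Complex.exp_log hz0⟩
      show Real.log R < (Complex.log z).re
      rw [Complex.log_re]
      exact Real.log_lt_log hR hz
    · rintro ⟨ζ, hζ, rfl⟩
      show R < ‖exp ζ‖
      rw [Complex.norm_exp]
      exact (Real.log_lt_iff_lt_exp hR).1 hζ
  rw [h1]
  exact ((convex_halfSpace_re_gt _).isPreconnected).image _ Complex.continuous_exp.continuousOn

theorem outer_facts {Ω : Set ℂ} (hb : Bornology.IsBounded Ω) :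
    IsOpen (outerComponent Ω) ∧ IsConnected (outerComponent Ω) ∧
      ¬ Bornology.IsBounded (outerComponent Ω) ∧ ∀ w ∈ outerComponent Ω, w ∉ closure Ω := by
  obtain ⟨R, hR0, hR⟩ : ∃ R : ℝ, 0 < R ∧ closure Ω ⊆ closedBall 0 R := by
    obtain ⟨R, hR⟩ := hb.closure.subset_closedBall 0
    exact ⟨max R 1, lt_max_of_lt_right one_pos, hR.trans (closedBall_subset_closedBall (le_max_left _ _))⟩
  set F : Set ℂ := (closure Ω)ᶜ with hF
  have hFo : IsOpen F := isClosed_closure.isOpen_compl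
  set X : Set ℂ := {z : ℂ | R < ‖z‖} with hX
  have hXF : X ⊆ F := by
    intro z hz hzc
    have := hR hzc
    rw [mem_closedBall_zero_iff] at this
    exact absurd hz (not_lt.2 this)
  have hXp : IsPreconnected X := ext_conn hR0
  set z0 : ℂ := ((R + 1 : ℝ) : ℂ) with hz0
  have hz0X : z0 ∈ X := by
    show R < ‖z0‖
    rw [hz0, Complex.norm_real, Real.norm_of_nonneg (by linarith)]
    linarith
  have hXu : ¬ Bornology.IsBounded X := by
    intro hbx
    obtain ⟨r, hr⟩ := hbx.subset_closedBall 0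
    have h1 : (((max R r) + 1 : ℝ) : ℂ) ∈ X := by
      show R < ‖(((max R r) + 1 : ℝ) : ℂ)‖
      rw [Complex.norm_real, Real.norm_of_nonneg (by linarith [le_max_left R r])]
      linarith [le_max_left R r]
    have h2 := hr h1
    rw [mem_closedBall_zero_iff, Complex.norm_real,
      Real.norm_of_nonneg (by linarith [le_max_left R r])] at h2
    linarith [le_max_right R r]
  have hXcomp : X ⊆ connectedComponentIn F z0 := hXp.subset_connectedComponentIn hz0X hXF
  have heq : outerComponent Ω = connectedComponentIn F z0 := by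
    ext z
    constructor
    · rintro ⟨hz1, hz2⟩
      have hzF : z ∈ F := hz1
      -- an unbounded component meets `X`
      obtain ⟨y, hy, hyX⟩ : ∃ y ∈ connectedComponentIn F z, y ∈ X := by
        by_contra hcon
        push Not at hcon
        apply hz2
        refine (isBounded_closedBall (x := (0 : ℂ)) (r := R)).subset fun y hy => ?_
        rw [mem_closedBall_zero_iff]
        exact not_lt.1 (hcon y hy)
      have h3 : y ∈ connectedComponentIn F z0 := hXcomp hyX
      have h4 := connectedComponentIn_eq hy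
      have h5 := connectedComponentIn_eq h3
      rw [h5, ← h4]
      exact mem_connectedComponentIn hzF
    · intro hz
      have hzF : z ∈ F := connectedComponentIn_subset F z0 hz
      refine ⟨hzF, fun hbd => ?_⟩
      rw [← connectedComponentIn_eq hz] at hbd
      exact hXu (hbd.subset hXcomp)
  rw [heq]
  refine ⟨hFo.connectedComponentIn, ?_, fun hbd => hXu (hbd.subset hXcomp), fun w hw =>
    connectedComponentIn_subset F z0 hw⟩
  exact ⟨⟨z0, mem_connectedComponentIn (hXF hz0X)⟩, isPreconnected_connectedComponentIn⟩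

/-- **The main theorem.** -/
theorem result :
    ∀ (Ω : Set ℂ) (φ : ℂ → ℂ) (W : ℝ → ℝ), IsOpen Ω → IsSimplyConnected Ω →
      Bornology.IsBounded Ω → IsConformalOntoDisc φ Ω → IsProfile W → LogLogDiverges W →
      0 < harmonicMeasure Ω φ (frontier (outerComponent Ω)) →
      ∀ (p : ℝ≥0∞) [Fact (1 ≤ p)], p ≠ ∞ →
        Hp (weighted Ω φ W) p = Lpa Ω (weighted Ω φ W) p := by
  intro Ω φ W hO hsc hbdd hφ hW hdiv hharm p _ hp
  have hp1 : (1 : ℝ≥0∞) ≤ p := Fact.out
  have hp0 : p ≠ 0 := (lt_of_lt_of_le one_pos hp1).ne'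
  obtain ⟨V1, V2, V3, V4⟩ := outer_facts hbdd
  obtain ⟨R, hR0, hsub⟩ : ∃ R : ℝ, 0 < R ∧ Ω ⊆ ball 0 R := by
    obtain ⟨R, hR⟩ := hbdd.subset_ball 0
    exact ⟨max R 1, lt_max_of_lt_right one_pos, hR.trans (ball_subset_ball (le_max_left _ _))⟩
  have hdata : Br.Data Ω φ (Function.invFunOn φ Ω) W (outerComponent Ω) R := by
    refine ⟨hO, hsc, hφ.1, hφ.2.1, hφ.2.2, rfl, hR0, hsub, hW.pos, hW.mono, hW.lim, hdiv, V1, V2,
      V3, V4, ?_⟩
    exact (ENNReal.div_pos_iff.1 hharm).1.bot_lt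
  set q : ℝ := p.toReal with hq
  have hq1 : 1 ≤ q := by
    have := (ENNReal.toReal_le_toReal (by simp) hp).2 hp1
    simpa using this
  have hq0 : 0 < q := by linarith
  set w : ℂ → ℝ≥0∞ := fun z => ENNReal.ofReal (W (1 - ‖φ z‖)) with hw
  have hwm : AEMeasurable w (volume.restrict Ω) := hdata.wmeas
  have hwf : ∀ z ∈ Ω, w z ≠ ∞ := fun z _ => ENNReal.ofReal_ne_top
  have hclosed : IsClosed (Lpa Ω (weighted Ω φ W) p) :=
    Hg.isClosed_Lpa hO hwm hwf (weight_low hφ hW) p hp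
  have hnorm : ∀ h : ℂ → ℂ, AEMeasurable h (volume.restrict Ω) →
      eLpNorm h p (weighted Ω φ W) = (∫⁻ z in Ω, ‖h z‖ₑ ^ q * w z) ^ (1 / q) := by
    intro h hh
    rw [eLpNorm_eq_lintegral_rpow_enorm_toReal hp0 hp]
    congr 1
    show ∫⁻ z, ‖h z‖ₑ ^ q ∂((volume.restrict Ω).withDensity w) = _
    rw [lintegral_withDensity_eq_lintegral_mul₀ hwm (hh.enorm.pow_const q)]
    simp only [Pi.mul_apply, mul_comm]
  have hac : weighted Ω φ W ≪ volume.restrict Ω := withDensity_absolutelyContinuous _ _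
  have hpm : ∀ P : Polynomial ℂ, AEMeasurable (fun z : ℂ => P.eval z) (volume.restrict Ω) :=
    fun P => (Polynomial.continuous P).measurable.aemeasurable
  have hda : ∀ f : ℂ → ℂ, DifferentiableOn ℂ f Ω → AEMeasurable f (volume.restrict Ω) :=
    fun f hf => hf.continuousOn.aemeasurable hO.measurableSet
  apply Subset.antisymm
  · apply closure_minimal _ hclosed
    rintro F ⟨P, hP⟩
    exact ⟨_, (Polynomial.differentiable P).differentiableOn, hP⟩
  · rintro F ⟨f, hf, hFf⟩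
    have hfin : ∫⁻ z in Ω, ‖f z‖ₑ ^ q * w z ≠ ∞ := by
      have e1 := (Lp.eLpNorm_lt_top F)
      rw [eLpNorm_congr_ae hFf, hnorm f (hda f hf)] at e1
      intro htop
      rw [htop, ENNReal.top_rpow_of_pos (by positivity)] at e1
      exact lt_irrefl _ e1
    rw [Hp, EMetric.mem_closure_iff]
    intro ε hε
    obtain ⟨P, hP⟩ := hdata.all hq1 f hf hfin (ε ^ q) (ENNReal.rpow_pos_of_nonneg hε hq0.le)
    have hroot : ∀ x : ℝ≥0∞, x < ε ^ q → x ^ (1 / q) < ε := by
      intro x hx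
      have := ENNReal.rpow_lt_rpow hx (show (0 : ℝ) < 1 / q by positivity)
      rwa [← ENNReal.rpow_mul, mul_one_div_cancel hq0.ne', ENNReal.rpow_one] at this
    have hPmem : MemLp (fun z : ℂ => P.eval z) p (weighted Ω φ W) := by
      have hfm : IsFiniteMeasure (weighted Ω φ W) := isFiniteMeasure_withDensity hdata.wfin
      obtain ⟨B, hB⟩ := (isCompact_closedBall (0 : ℂ) R).exists_bound_of_continuousOn
        (Polynomial.continuous P).continuousOn
      refine MemLp.of_bound ((hpm P).mono_ac hac).aestronglyMeasurable B ?_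
      apply hac.ae_le
      filter_upwards [ae_restrict_mem hO.measurableSet] with z hz
      exact hB z (ball_subset_closedBall (hsub hz))
    refine ⟨hPmem.toLp _, ⟨P, hPmem.coeFn_toLp⟩, ?_⟩
    rw [Lp.edist_def]
    have e1 : eLpNorm (F - hPmem.toLp _ : ℂ → ℂ) p (weighted Ω φ W)
        = eLpNorm (fun z => f z - P.eval z) p (weighted Ω φ W) := by
      apply eLpNorm_congr_ae
      filter_upwards [hFf, hPmem.coeFn_toLp] with z hz1 hz2
      simp only [Pi.sub_apply]
      rw [hz1, hz2]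
    have m1 : AEMeasurable (fun z => f z - P.eval z) (volume.restrict Ω) := (hda f hf).sub (hpm P)
    rw [e1, hnorm _ m1]
    exact hroot _ hP

end Pool.Agent.Results.MP_3a6b94_an.CompletenessAllExponents
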